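import Pool.Agent.H92.SG.Stmts

/-!
MP_046772_gt, board `sg7`, module SB: a saddle.
-/

namespace Pool.Agent.H44.SG

open Pool.Agent.H92.SG

theorem isBand_mono {n m : ℕ} (h : n ≤ m) {x : B} (hx : IsBand n x) : IsBand m x := by
  obtain ⟨w, hw, i, hi, hx⟩ := hx
  exact ⟨w, Bn_mono h hw, i, by omega, hx⟩

theorem isBand_inv {n : ℕ} {x : B} (hx : IsBand n x) : IsBand n x⁻¹ := by
  obtain ⟨w, hw, i, hi, hx | hx⟩ := hx
  · exact ⟨w, hw, i, hi, Or.inr (by rw [hx]; group)⟩
  · exact ⟨w, hw, i, hi, Or.inl (by rw [hx]; group)⟩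

theorem SB_thm : SurfBandStmt := by
  rintro n β x e hx ⟨b, l, hl, hprod, hlen, hconn⟩
  refine ⟨b, l ++ [x⁻¹], ?_, ?_, ?_, ?_⟩
  · intro y hy
    rcases List.mem_append.1 hy with hy | hy
    · exact hl y hy
    · rw [List.mem_singleton.1 hy]
      exact isBand_inv (isBand_mono (Nat.le_add_right n b) hx)
  · rw [List.prod_append, hprod]
    simp
  · rw [List.length_append, List.length_singleton]
    omega
  · intro S h0 hS
    exact hconn S h0 (fun y hy => hS y (List.mem_append_left _ hy))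

end Pool.Agent.H44.SG
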